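import Pool.Agent.helper24.ISL.Spec

set_option autoImplicit false

namespace Pool.Agent.ISL

open Matrix Filter Topology

theorem TRR_conj {n : ℕ} {F : Type} [Field F] (x : SL n F) (i j : Fin n) (hij : i ≠ j) (t : F) :
    ((x * Matrix.SpecialLinearGroup.transvection hij t * x⁻¹ : SL n F) : Mat n F)
      = 1 + t • rk (fun a => x a i) (fun b => x⁻¹ j b) := by
  have h1 : ((x : SL n F) : Mat n F) * ((x⁻¹ : SL n F) : Mat n F) = 1 := by
    rw [← Matrix.SpecialLinearGroup.coe_mul, mul_inv_cancel, Matrix.SpecialLinearGroup.coe_one]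
  rw [Matrix.SpecialLinearGroup.coe_mul, Matrix.SpecialLinearGroup.coe_mul,
    Matrix.SpecialLinearGroup.transvection_coe, mul_add, add_mul, mul_one, h1]
  congr 1
  have h2 : Matrix.single i j t = t • Matrix.single i j (1 : F) := by
    rw [Matrix.smul_single, smul_eq_mul, mul_one]
  rw [h2, Matrix.single_eq_single_vecMulVec_single, Matrix.mul_smul, Matrix.smul_mul,
    Matrix.mul_vecMulVec, Matrix.vecMulVec_mul, Matrix.mulVec_single_one, Matrix.single_one_vecMul]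
  rfl

theorem TRR_den {ι : Type} [Fintype ι] (f : ι → ℚ) :
    ∃ k : ℕ, 0 < k ∧ ∃ z : ι → ℤ, ∀ i, (k : ℚ) * f i = z i := by
  classical
  refine ⟨∏ i, (f i).den, Finset.prod_pos fun i _ => (f i).pos, ?_⟩
  have h : ∀ i, ∃ z : ℤ, ((∏ i, (f i).den : ℕ) : ℚ) * f i = z := by
    intro i
    obtain ⟨c, hc⟩ := Finset.dvd_prod_of_mem (fun i => (f i).den) (Finset.mem_univ i)
    refine ⟨c * (f i).num, ?_⟩
    rw [hc]
    push_cast
    have h1 : ((f i).den : ℚ) * f i = (f i).num := by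
      rw [mul_comm]
      exact Rat.mul_den_eq_num (f i)
    linear_combination (c : ℚ) * h1
  choose z hz using h
  exact ⟨z, hz⟩

theorem TRR_pow {n : ℕ} (H : Subgroup (SL n ℚ)) (x : SL n ℚ) (i j : Fin n) (hij : i ≠ j)
    (h : x * Matrix.SpecialLinearGroup.transvection hij (1 : ℚ) * x⁻¹ ∈ H) (N : ℕ) :
    x * Matrix.SpecialLinearGroup.transvection hij (N : ℚ) * x⁻¹ ∈ H := by
  induction N with
  | zero =>
    rw [Nat.cast_zero, Matrix.SpecialLinearGroup.transvection_coeff_zero, mul_one, mul_inv_cancel]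
    exact H.one_mem
  | succ N ih =>
    have e : x * Matrix.SpecialLinearGroup.transvection hij ((N + 1 : ℕ) : ℚ) * x⁻¹
        = (x * Matrix.SpecialLinearGroup.transvection hij (N : ℚ) * x⁻¹)
          * (x * Matrix.SpecialLinearGroup.transvection hij (1 : ℚ) * x⁻¹) := by
      rw [Nat.cast_add, Nat.cast_one, Matrix.SpecialLinearGroup.transvection_add]
      group
    rw [e]
    exact H.mul_mem ih h

theorem TRR_entry {n : ℕ} {F : Type} [Field F] (x y : SL n F) (i j : Fin n) :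
    (x * y : SL n F) i j = ∑ k, x i k * y k j := by
  rw [Matrix.SpecialLinearGroup.coe_mul, Matrix.mul_apply]

theorem TRR_inv_entry {n : ℕ} {F : Type} [Field F] (x : SL n F) (i j : Fin n) :
    ∑ k, (x⁻¹ : SL n F) i k * x k j = (1 : Mat n F) i j := by
  rw [← TRR_entry, inv_mul_cancel, Matrix.SpecialLinearGroup.coe_one]

theorem TRR_Dv {S : Set ℕ} {q e m₁ : ℕ} (hq : q.Prime) (hqS : q ∈ S) {x : ℚ} (h : Dv S m₁ x) :
    Dv S (q ^ e * m₁) x := by
  intro r hr hrS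
  have : Fact r.Prime := ⟨hr⟩
  have : Fact q.Prime := ⟨hq⟩
  have hrq : r ≠ q := fun h => hrS (h ▸ hqS)
  have h1 : padicNorm r ((q : ℕ) : ℚ) = 1 := padicNorm.padicNorm_of_prime_of_ne hrq
  have h2 : padicNorm r ((q ^ e * m₁ : ℕ) : ℚ) = padicNorm r (m₁ : ℚ) := by
    rw [Nat.cast_mul, Nat.cast_pow, padicNorm.mul]
    have h3 : padicNorm r ((q : ℚ) ^ e) = 1 := by
      induction e with
      | zero => simp
      | succ e ih => rw [pow_succ, padicNorm.mul, ih, h1, mul_one]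
    rw [h3, one_mul]
  rw [h2]
  exact h r hr hrS

theorem TRR (h1 : CLO_stmt) (h2 : NI_stmt) : TRR_stmt := by
  intro n hn H hH p q _ S hp hqp hpS hqS
  have hqpr : q.Prime := Fact.out
  set i0 : Fin n := ⟨0, by omega⟩ with hi0
  set i1 : Fin n := ⟨1, by omega⟩ with hi1
  have h01 : i0 ≠ i1 := by
    rw [hi0, hi1]
    intro h
    simp at h
  obtain ⟨x, hx⟩ := hH (Matrix.SpecialLinearGroup.transvection h01 (1 : ℚ))
  set v₀ : Fin n → ℚ := fun a => x a i0 with hv₀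
  set φ : Fin n → ℚ := fun b => (x⁻¹ : SL n ℚ) i1 b with hφ
  obtain ⟨k, hk, Z, hZ⟩ := TRR_den (fun ab : Fin n × Fin n => v₀ ab.1 * φ ab.2)
  have hk' : (k : ℚ) ≠ 0 := by exact_mod_cast hk.ne'
  set v : Fin n → ℚ := fun a => k * v₀ a with hv
  have hvφ : ∀ a b, v a * φ b = (Z (a, b) : ℚ) := by
    intro a b
    rw [← hZ (a, b), hv]
    ring
  refine ⟨v, φ, ?_, ?_, ?_, 1, one_pos, ?_⟩
  · intro h0
    have hzero : ∀ a, x a i0 = 0 := by
      intro a
      have := congrFun h0 a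
      simp only [hv, hv₀, Pi.zero_apply, mul_eq_zero, hk', false_or] at this
      exact this
    have := TRR_inv_entry x i0 i0
    rw [Matrix.one_apply_eq] at this
    simp [hzero] at this
  · intro h0
    have hzero : ∀ b, (x⁻¹ : SL n ℚ) i1 b = 0 := fun b => congrFun h0 b
    have := TRR_inv_entry x i1 i1
    rw [Matrix.one_apply_eq] at this
    simp only [hzero, zero_mul, Finset.sum_const_zero] at this
    exact zero_ne_one this
  · have h3 := TRR_inv_entry x i1 i0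
    rw [Matrix.one_apply_ne (Ne.symm h01)] at h3
    have h4 : φ ⬝ᵥ v = (k : ℚ) * ∑ a, (x⁻¹ : SL n ℚ) i1 a * x a i0 := by
      rw [dotProduct, Finset.mul_sum]
      refine Finset.sum_congr rfl fun a _ => ?_
      rw [hφ, hv, hv₀]
      ring
    rw [h4, h3, mul_zero]
  intro z hz
  have hmat : ((cs ℚ_[q] x * Matrix.SpecialLinearGroup.transvection h01 ((k : ℚ_[q]) * z)
      * (cs ℚ_[q] x)⁻¹ : SL n ℚ_[q]) : Mat n ℚ_[q]) = 1 + z • rk (cv ℚ_[q] v) (cv ℚ_[q] φ) := by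
    rw [TRR_conj, ← map_inv]
    congr 1
    ext a b
    simp only [Matrix.smul_apply, rk, Matrix.vecMulVec_apply, cs_apply, cv, smul_eq_mul, hv, hφ, hv₀]
    push_cast
    ring
  refine ⟨_, ?_, hmat⟩
  set g : SL n ℚ_[q] := cs ℚ_[q] x * Matrix.SpecialLinearGroup.transvection h01 ((k : ℚ_[q]) * z)
      * (cs ℚ_[q] x)⁻¹ with hg
  have hgij : ∀ i j, g i j = (1 : Mat n ℚ_[q]) i j + z * ((Z (i, j) : ℤ) : ℚ_[q]) := by
    intro i j
    have h3 := congrFun (congrFun hmat i) j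
    rw [h3, Matrix.add_apply, Matrix.smul_apply, rk, Matrix.vecMulVec_apply, cv, cv, smul_eq_mul,
      ← Rat.cast_mul, hvφ, Rat.cast_intCast]
  intro m hm ε hε
  rw [h1]
  intro δ hδ
  obtain ⟨e, m₁, hm₁, hme⟩ := Nat.exists_eq_pow_mul_and_not_dvd hm.ne' q hqpr.ne_one
  have hm₁n : ‖(m₁ : ℚ_[q])‖ = 1 := by
    rw [Padic.norm_natCast_eq_one_iff]
    exact (Nat.Prime.coprime_iff_not_dvd hqpr).2 hm₁
  have hm₁0 : (m₁ : ℚ_[q]) ≠ 0 := by
    intro h
    rw [h, norm_zero] at hm₁n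
    exact zero_ne_one hm₁n
  have hzn : ‖z / m₁‖ ≤ 1 := by
    rw [norm_div, hm₁n, div_one]
    exact hz.le
  obtain ⟨N₁, hN₁⟩ := (PadicInt.denseRange_natCast (p := q)).exists_dist_lt ⟨z / m₁, hzn⟩ hδ
  have hNz : ‖((m₁ * N₁ : ℕ) : ℚ_[q]) - z‖ < δ := by
    have h3 : ‖z / m₁ - (N₁ : ℚ_[q])‖ < δ := by
      rw [dist_eq_norm] at hN₁
      exact hN₁
    have h4 : ((m₁ * N₁ : ℕ) : ℚ_[q]) - z = -(m₁ * (z / m₁ - N₁)) := by
      push_cast
      field_simp
      ring
    rw [h4, norm_neg, norm_mul, hm₁n, one_mul]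
    exact h3
  set N : ℕ := m₁ * N₁ with hN
  -- the element u
  set u : SL n ℚ := x * Matrix.SpecialLinearGroup.transvection h01 ((k * N : ℕ) : ℚ) * x⁻¹ with hu
  have huH : u ∈ H := TRR_pow H x i0 i1 h01 hx (k * N)
  have huij : ∀ i j, u i j = (1 : Mat n ℚ) i j + N * (Z (i, j) : ℚ) := by
    intro i j
    have h3 := congrFun (congrFun (TRR_conj x i0 i1 h01 ((k * N : ℕ) : ℚ)) i) j
    rw [hu, h3, Matrix.add_apply, Matrix.smul_apply, rk, Matrix.vecMulVec_apply, smul_eq_mul, ← hZ (i, j)]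
    push_cast
    ring
  have huint : ∀ i j, ∃ a : ℤ, u i j = (a : ℚ) := by
    intro i j
    rw [huij]
    by_cases hij : i = j
    · refine ⟨1 + N * Z (i, j), ?_⟩
      rw [hij, Matrix.one_apply_eq]
      push_cast
      ring
    · refine ⟨N * Z (i, j), ?_⟩
      rw [Matrix.one_apply_ne hij]
      push_cast
      ring
  -- the power of q
  obtain ⟨T, hT⟩ := exists_pow_lt_of_lt_one hδ (Padic.norm_p_lt_one (p := q))
  set m' : ℕ := m * q ^ T with hm'
  have hm'0 : 0 < m' := Nat.mul_pos hm (pow_pos hqpr.pos _)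
  have hm'n : ‖(m' : ℚ_[q])‖ < δ := by
    rw [hm', Nat.cast_mul, Nat.cast_pow, norm_mul, norm_pow]
    have h3 : ‖(m : ℚ_[q])‖ ≤ 1 := by
      have := Padic.norm_int_le_one (p := q) (m : ℤ)
      exact_mod_cast this
    calc ‖(m : ℚ_[q])‖ * ‖(q : ℚ_[q])‖ ^ T ≤ 1 * ‖(q : ℚ_[q])‖ ^ T :=
          mul_le_mul_of_nonneg_right h3 (by positivity)
      _ < δ := by rw [one_mul]; exact hT
  -- the element w
  set B : ℝ := ∑ j, ∑ l, |((u l j : ℚ) : ℝ)| with hB
  have hB0 : 0 ≤ B := Finset.sum_nonneg fun j _ => Finset.sum_nonneg fun l _ => abs_nonneg _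
  have hε' : (0 : ℝ) < ε := by exact_mod_cast hε
  have hNI : cs ℝ u⁻¹ ∈ NS ℝ H {p} false := by
    rw [h2 n hn H hH p hp]
    exact Set.mem_univ _
  have hcl := hNI m' hm'0 1 one_pos
  rw [h1] at hcl
  obtain ⟨w, ⟨hwH, hwD, -⟩, hwr⟩ := hcl (ε / (B + 1)) (by positivity)
  have hent : ∀ i j, (w * u : SL n ℚ) i j - (1 : Mat n ℚ) i j
      = ∑ l, (w i l - (u⁻¹ : SL n ℚ) i l) * u l j := by
    intro i j
    rw [TRR_entry, ← TRR_inv_entry u i j, ← Finset.sum_sub_distrib]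
    refine Finset.sum_congr rfl fun l _ => ?_
    ring
  have hent2 : ∀ i j, (w * u : SL n ℚ) i j
      = ∑ l, (w i l - (1 : Mat n ℚ) i l) * u l j + u i j := by
    intro i j
    have h3 : ∑ l, (1 : Mat n ℚ) i l * u l j = u i j := by
      have := congrFun (congrFun (one_mul (u : Mat n ℚ)) i) j
      rw [Matrix.mul_apply] at this
      exact this
    rw [TRR_entry]
    simp only [sub_mul]
    rw [Finset.sum_sub_distrib, h3]
    ring
  refine ⟨w * u, ⟨H.mul_mem hwH huH, ?_, ?_⟩, ?_⟩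
  · intro i j
    rw [hent2 i j]
    have h3 : ∑ l, (w i l - (1 : Mat n ℚ) i l) * u l j + u i j - (1 : Mat n ℚ) i j
        = ∑ l, (w i l - (1 : Mat n ℚ) i l) * u l j + (m₁ : ℚ) * ((N₁ * Z (i, j) : ℤ) : ℚ) := by
      rw [huij i j, hN]
      push_cast
      ring
    rw [h3]
    refine Dv.add (Dv.sum fun l _ => ?_) ?_
    · obtain ⟨a, ha⟩ := huint l j
      rw [ha]
      have h4 : Dv S m (w i l - (1 : Mat n ℚ) i l) :=
        ((hwD i l).subset (by
          intro r hr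
          rw [Set.mem_singleton_iff] at hr
          rw [hr]
          exact hpS)).mono (Dvd.intro _ rfl)
      have h5 := h4.mul (Dv.int (S := S) a)
      rwa [mul_one] at h5
    · rw [hme]
      apply TRR_Dv hqpr hqS
      have h4 : Dv S m₁ (m₁ : ℚ) := fun r _ _ => le_rfl
      have h5 := h4.mul (Dv.int (S := S) (N₁ * Z (i, j)))
      rwa [mul_one] at h5
  · intro _ i j
    rw [hent i j]
    have h3 : |((∑ l, (w i l - (u⁻¹ : SL n ℚ) i l) * u l j : ℚ) : ℝ)| < ε := by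
      push_cast
      calc |∑ l, (((w i l : ℚ) : ℝ) - (((u⁻¹ : SL n ℚ) i l : ℚ) : ℝ)) * ((u l j : ℚ) : ℝ)|
          ≤ ∑ l, |(((w i l : ℚ) : ℝ) - (((u⁻¹ : SL n ℚ) i l : ℚ) : ℝ)) * ((u l j : ℚ) : ℝ)| :=
            Finset.abs_sum_le_sum_abs _ _
        _ ≤ ∑ l, ε / (B + 1) * |((u l j : ℚ) : ℝ)| := by
            refine Finset.sum_le_sum fun l _ => ?_
            rw [abs_mul]
            refine mul_le_mul_of_nonneg_right ?_ (abs_nonneg _)
            exact (hwr i l).le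
        _ = ε / (B + 1) * ∑ l, |((u l j : ℚ) : ℝ)| := by rw [Finset.mul_sum]
        _ ≤ ε / (B + 1) * B := by
            refine mul_le_mul_of_nonneg_left ?_ (by positivity)
            exact Finset.single_le_sum (f := fun j => ∑ l, |((u l j : ℚ) : ℝ)|)
              (fun j _ => Finset.sum_nonneg fun l _ => abs_nonneg _) (Finset.mem_univ j)
        _ < ε := by
            rw [div_mul_eq_mul_div, div_lt_iff₀ (by positivity)]
            nlinarith
    rw [← Rat.cast_abs] at h3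
    exact_mod_cast h3
  · intro i j
    rw [hent2 i j, hgij i j]
    have h3 : ((∑ l, (w i l - (1 : Mat n ℚ) i l) * u l j + u i j : ℚ) : ℚ_[q])
        - ((1 : Mat n ℚ_[q]) i j + z * ((Z (i, j) : ℤ) : ℚ_[q]))
        = ∑ l, (((w i l - (1 : Mat n ℚ) i l : ℚ)) : ℚ_[q]) * ((u l j : ℚ) : ℚ_[q])
          + ((N : ℚ_[q]) - z) * ((Z (i, j) : ℤ) : ℚ_[q]) := by
      have h4 : ((((1 : Mat n ℚ) i j : ℚ)) : ℚ_[q]) = (1 : Mat n ℚ_[q]) i j := by
        by_cases hij : i = j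
        · rw [hij, Matrix.one_apply_eq, Matrix.one_apply_eq, Rat.cast_one]
        · rw [Matrix.one_apply_ne hij, Matrix.one_apply_ne hij, Rat.cast_zero]
      rw [Rat.cast_add, Rat.cast_sum, huij i j, Rat.cast_add, h4]
      simp only [Rat.cast_mul, Rat.cast_natCast, Rat.cast_intCast]
      ring
    rw [h3]
    refine lt_of_le_of_lt (IsUltrametricDist.norm_add_le_max _ _) (max_lt ?_ ?_)
    · refine lt_of_le_of_lt (IsUltrametricDist.norm_sum_le_of_forall_le_of_nonneg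
        (norm_nonneg (m' : ℚ_[q])) ?_) hm'n
      intro l _
      rw [norm_mul]
      obtain ⟨a, ha⟩ := huint l j
      have h4 : ‖((u l j : ℚ) : ℚ_[q])‖ ≤ 1 := by
        rw [ha, Rat.cast_intCast]
        exact Padic.norm_int_le_one a
      have h5 : ‖(((w i l - (1 : Mat n ℚ) i l : ℚ)) : ℚ_[q])‖ ≤ ‖(m' : ℚ_[q])‖ :=
        (hwD i l).norm q (by
          rw [Set.mem_singleton_iff]
          exact hqp)
      calc _ ≤ ‖(m' : ℚ_[q])‖ * 1 := mul_le_mul h5 h4 (norm_nonneg _) (norm_nonneg _)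
        _ = _ := mul_one _
    · rw [norm_mul]
      have h4 : ‖((Z (i, j) : ℤ) : ℚ_[q])‖ ≤ 1 := Padic.norm_int_le_one _
      calc ‖(N : ℚ_[q]) - z‖ * ‖((Z (i, j) : ℤ) : ℚ_[q])‖ ≤ ‖(N : ℚ_[q]) - z‖ * 1 :=
            mul_le_mul_of_nonneg_left h4 (norm_nonneg _)
        _ < δ := by rw [mul_one]; exact hNz

end Pool.Agent.ISL
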